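import Pool.Agent.H69N.LA.Uni

set_option autoImplicit false

open Filter Topology Polynomial MeasureTheory Metric

namespace Pool.Agent.Results.MP_28f8a1_an.FamilyAreaBound

/-- The polynomial as a self-map of the plane. -/
def map (T : ℂ[X]) : ℂ → ℂ := fun w : ℂ => T.eval w

/-- The orbit of `z` escapes to infinity. -/
def Escapes (T : ℂ[X]) (z : ℂ) : Prop :=
  Tendsto (fun k : ℕ => ‖(map T)^[k] z‖) atTop atTop

/-- The filled Julia set of `T`: the points which do not escape. -/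
def Ks (T : ℂ[X]) : Set ℂ := {z : ℂ | ¬ Escapes T z}

/-- Let `f t`, `t` in the unit disc, be a holomorphic family of polynomials of degree `d` with constant
coefficients of `z ^ d` and `z ^ (d - 1)`, in which no critical point escapes. The derivatives at
`t = 0` of the other coefficients are given by a triangular linear system in terms of numbers `v q`,
`q ≤ d - 2`, with `(π ‖v q‖) ^ 2 ≤ area (Ks (f 0)) * ∫_{Ks (f 0)} ‖z‖ ^ (2 q)`. In particular, if
`Ks (f 0)` lies in the disc of radius `R`, they are bounded by explicit constants, which depend only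
on `R` and on the coefficients of `f 0`, times the area of the filled Julia set of `f 0`. -/
theorem result :
    ∀ (d : ℕ) (f : ℂ → ℂ[X]), 2 ≤ d →
      (∀ t ∈ ball (0 : ℂ) 1, (f t).natDegree = d ∧ (f t).leadingCoeff = (f 0).leadingCoeff ∧
        (f t).coeff (d - 1) = (f 0).coeff (d - 1)) →
      (∀ j : ℕ, DifferentiableOn ℂ (fun t => (f t).coeff j) (ball 0 1)) →
      (∀ t ∈ ball (0 : ℂ) 1, ∀ c : ℂ, (derivative (f t)).eval c = 0 → ¬ Escapes (f t) c) →
      volume (Ks (f 0)) < ⊤ ∧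
      (∃ v : ℕ → ℂ,
        (∀ q : ℕ, q ≤ d - 2 → (Real.pi * ‖v q‖) ^ 2 ≤
          (volume (Ks (f 0))).toReal * ∫ z in Ks (f 0), ‖z‖ ^ (2 * q)) ∧
        ∀ j : ℕ, j ≤ d - 2 → deriv (fun t => (f t).coeff j) 0 =
          -∑ q ∈ Finset.range (d - 1 - j), ((j + q + 2 : ℕ) : ℂ) * (f 0).coeff (j + q + 2) * v q) ∧
      ∀ R : ℝ, 0 ≤ R → (∀ z ∈ Ks (f 0), ‖z‖ ≤ R) → ∀ j : ℕ, j ≤ d - 2 →
        Real.pi * ‖deriv (fun t => (f t).coeff j) 0‖ ≤
          (∑ q ∈ Finset.range (d - 1 - j), ((j + q + 2 : ℕ) : ℝ) * ‖(f 0).coeff (j + q + 2)‖ * R ^ q) *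
            (volume (Ks (f 0))).toReal := by
  have hpi := Real.pi_pos
  intro d f hd hf hhol hnon
  obtain ⟨n, rfl⟩ : ∃ n, d = n + 1 := ⟨d - 1, by omega⟩
  have h0mem : (0 : ℂ) ∈ ball (0 : ℂ) 1 := mem_ball_self one_pos
  have hn : 1 ≤ n := by omega
  have hlead : ∀ t ∈ ball (0 : ℂ) 1, (f t).coeff (n + 1) = (f 0).leadingCoeff := by
    intro t ht
    obtain ⟨e1, e2, -⟩ := hf t ht
    rw [← e2, ← coeff_natDegree, e1]
  have ha : (f 0).leadingCoeff ≠ 0 := by
    rw [leadingCoeff_ne_zero]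
    intro h
    have := (hf 0 h0mem).1
    rw [h, natDegree_zero] at this
    omega
  obtain ⟨hfin, v, hv, hrel⟩ := Pool.Agent.H69N.LA.family_bound hn ha
    (fun t ht => (hf t ht).1.le) hlead (fun t ht => (hf t ht).2.2) hhol
    (fun t ht c hc => hnon t ht c hc)
  have hK : Pool.Agent.H713R3.ZA.KJ (f 0) = Ks (f 0) := rfl
  rw [hK] at hfin hv
  refine ⟨hfin, ⟨v, fun q hq => hv q (by omega), fun j hj => ?_⟩, ?_⟩
  · rw [show n + 1 - 1 - j = n - j by omega]
    exact hrel j (by omega)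
  · intro R hR hKR j hj
    rw [show n + 1 - 1 - j = n - j by omega, hrel j (by omega), norm_neg]
    have h1 : ∀ q ∈ Finset.range (n - j), Real.pi * ‖((j + q + 2 : ℕ) : ℂ) *
        (f 0).coeff (j + q + 2) * v q‖ ≤ ((j + q + 2 : ℕ) : ℝ) * ‖(f 0).coeff (j + q + 2)‖ *
        R ^ q * (volume (Ks (f 0))).toReal := by
      intro q hq
      have hq' := Finset.mem_range.mp hq
      have h2 := Pool.Agent.H69N.LA.moment_bound (D := 1) hfin zero_le_one hR hKR
        (x := Real.pi * ‖v q‖) (q := q) (by rw [one_pow, one_mul]; exact hv q (by omega))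
      rw [one_mul] at h2
      rw [norm_mul, norm_mul, Complex.norm_natCast]
      calc Real.pi * (((j + q + 2 : ℕ) : ℝ) * ‖(f 0).coeff (j + q + 2)‖ * ‖v q‖) =
          ((j + q + 2 : ℕ) : ℝ) * ‖(f 0).coeff (j + q + 2)‖ * (Real.pi * ‖v q‖) := by ring
        _ ≤ ((j + q + 2 : ℕ) : ℝ) * ‖(f 0).coeff (j + q + 2)‖ *
            (R ^ q * (volume (Ks (f 0))).toReal) := by gcongr
        _ = _ := by ring
    calc Real.pi * ‖∑ q ∈ Finset.range (n - j), ((j + q + 2 : ℕ) : ℂ) *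
          (f 0).coeff (j + q + 2) * v q‖ ≤
        Real.pi * ∑ q ∈ Finset.range (n - j), ‖((j + q + 2 : ℕ) : ℂ) *
          (f 0).coeff (j + q + 2) * v q‖ :=
          mul_le_mul_of_nonneg_left (norm_sum_le _ _) hpi.le
      _ = ∑ q ∈ Finset.range (n - j), Real.pi * ‖((j + q + 2 : ℕ) : ℂ) *
          (f 0).coeff (j + q + 2) * v q‖ := by rw [Finset.mul_sum]
      _ ≤ ∑ q ∈ Finset.range (n - j), ((j + q + 2 : ℕ) : ℝ) * ‖(f 0).coeff (j + q + 2)‖ *
        R ^ q * (volume (Ks (f 0))).toReal := Finset.sum_le_sum h1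
      _ = _ := by rw [Finset.sum_mul]

end Pool.Agent.Results.MP_28f8a1_an.FamilyAreaBound
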